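import Pool.Agent.H55.MU.GalStm

/-!
# Project MU, stub UNR: almost all primes are unramified in a number field
-/

set_option autoImplicit false

namespace Pool.Agent.H35.MU

open NumberField Pool.Agent.W569.FM Pool.Agent.Helper832_EG

variable {E : Type} [Field E]

/-- the differences `g x - x` are finitely many -/
lemma finite_diff (x : OO E) : (Set.range fun g : GF E => g • x - x).Finite := by
  have hx : IsIntegral E (x : AlgebraicClosure E) := Algebra.IsIntegral.isIntegral _
  have h1 : ((minpoly E (x : AlgebraicClosure E)).rootSet (AlgebraicClosure E)).Finite :=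
    Polynomial.rootSet_finite _ _
  have h2 : (Set.range fun g : GF E => g • x).Finite := by
    refine Set.Finite.of_finite_image (f := fun z : OO E => (z : AlgebraicClosure E))
      (h1.subset ?_) (fun a _ b _ h => RingOfIntegers.ext h)
    rintro _ ⟨_, ⟨g, rfl⟩, rfl⟩
    rw [Polynomial.mem_rootSet]
    refine ⟨minpoly.ne_zero hx, ?_⟩
    have h3 : ((g • x : OO E) : AlgebraicClosure E) = g (x : AlgebraicClosure E) := rfl
    simp only [h3]
    have h4 : (Polynomial.aeval (g (x : AlgebraicClosure E))) (minpoly E (x : AlgebraicClosure E))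
        = g ((Polynomial.aeval (x : AlgebraicClosure E)) (minpoly E (x : AlgebraicClosure E))) :=
      Polynomial.aeval_algHom_apply (g : AlgebraicClosure E →ₐ[E] AlgebraicClosure E) _ _
    rw [h4, minpoly.aeval, map_zero]
  refine (h2.image fun z => z - x).subset ?_
  rintro _ ⟨g, rfl⟩
  exact ⟨g • x, ⟨g, rfl⟩, rfl⟩

/-- a nonzero algebraic integer divides a nonzero integer -/
lemma exists_int (y : OO E) (hy : y ≠ 0) : ∃ M : ℤ, M ≠ 0 ∧ y ∣ (M : OO E) := by
  have h1 : (Ideal.span {y}).comap (algebraMap ℤ (OO E)) ≠ ⊥ :=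
    Ideal.comap_ne_bot_of_integral_mem hy (Ideal.mem_span_singleton_self y)
      (Algebra.IsIntegral.isIntegral y)
  obtain ⟨M, hM, hM0⟩ := Submodule.exists_mem_ne_zero_of_ne_bot h1
  refine ⟨M, hM0, ?_⟩
  have h2 : algebraMap ℤ (OO E) M ∈ Ideal.span {y} := hM
  rw [Ideal.mem_span_singleton] at h2
  simpa using h2

lemma fix_int (x : OO E) : ∃ p₀ : ℕ, ∀ p : ℕ, p.Prime → p₀ ≤ p → ∀ P : Ideal (OO E),
    P.IsMaximal → (p : OO E) ∈ P → ∀ g : GF E, InInertia P g → g • x = x := by
  classical
  have hM : ∀ y : OO E, ∃ M : ℤ, M ≠ 0 ∧ (y ≠ 0 → y ∣ (M : OO E)) := by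
    intro y
    by_cases hy : y = 0
    · exact ⟨1, one_ne_zero, fun h => absurd hy h⟩
    · obtain ⟨M, h1, h2⟩ := exists_int y hy
      exact ⟨M, h1, fun _ => h2⟩
  choose M hM0 hM1 using hM
  refine ⟨1 + ∑ y ∈ (finite_diff x).toFinset, (M y).natAbs, ?_⟩
  intro p hp hle P hP hpP g hg
  by_contra hne
  set y : OO E := g • x - x with hy
  have hy0 : y ≠ 0 := fun h => hne (sub_eq_zero.1 h)
  have hyP : y ∈ P := hg x
  have h1 : (M y : OO E) ∈ P := by
    obtain ⟨z, hz⟩ := hM1 y hy0
    rw [hz]; exact P.mul_mem_right _ hyP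
  have hmem : y ∈ (finite_diff x).toFinset := by
    rw [Set.Finite.mem_toFinset]; exact ⟨g, rfl⟩
  have h2 : (M y).natAbs < p := by
    have h6 : (M y).natAbs ≤ ∑ y ∈ (finite_diff x).toFinset, (M y).natAbs :=
      Finset.single_le_sum (f := fun y => (M y).natAbs) (fun _ _ => Nat.zero_le _) hmem
    omega
  have h3 : IsCoprime (p : ℤ) (M y) := by
    rw [Int.isCoprime_iff_nat_coprime, Int.natAbs_natCast]
    refine (Nat.Prime.coprime_iff_not_dvd hp).2 fun hd => ?_
    have h4 := Nat.le_of_dvd (Int.natAbs_pos.2 (hM0 y)) hd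
    omega
  obtain ⟨a, b, hab⟩ := h3
  apply hP.ne_top
  rw [Ideal.eq_top_iff_one]
  have h5 : (1 : OO E) = (a : OO E) * (p : OO E) + (b : OO E) * (M y : OO E) := by
    have := congrArg (fun z : ℤ => (z : OO E)) hab
    push_cast at this
    exact this.symm
  rw [h5]
  exact P.add_mem (P.mul_mem_left _ hpP) (P.mul_mem_left _ h1)

/-- the same for all algebraic numbers -/
lemma fix_elt [NumberField E] (z : AlgebraicClosure E) : ∃ p₀ : ℕ, ∀ p : ℕ, p.Prime → p₀ ≤ p →
    ∀ P : Ideal (OO E), P.IsMaximal → (p : OO E) ∈ P → ∀ g : GF E, InInertia P g → g z = z := by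
  have : CharZero (AlgebraicClosure E) := charZero_of_injective_algebraMap
    (algebraMap E (AlgebraicClosure E)).injective
  have hz : IsAlgebraic ℤ z := by
    have : Algebra.IsAlgebraic ℚ (AlgebraicClosure E) :=
      Algebra.IsAlgebraic.trans ℚ E (AlgebraicClosure E)
    have : IsAlgebraic ℚ z := Algebra.IsAlgebraic.isAlgebraic z
    exact (IsFractionRing.isAlgebraic_iff ℤ ℚ (AlgebraicClosure E)).2 this
  obtain ⟨d, hd0, hd⟩ := hz.exists_integral_multiple
  obtain ⟨p₀, h⟩ := fix_int (⟨d • z, hd⟩ : OO E)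
  refine ⟨p₀, fun p hp hle P hP hpP g hg => ?_⟩
  have h1 := h p hp hle P hP hpP g hg
  have h2 : g (d • z) = d • z := congrArg (fun w : OO E => (w : AlgebraicClosure E)) h1
  rw [map_zsmul] at h2
  exact smul_right_injective (AlgebraicClosure E) hd0 h2

theorem gen [NumberField E] (K : IntermediateField E (AlgebraicClosure E)) [FiniteDimensional E K] :
    ∃ p₀ : ℕ, ∀ p : ℕ, p.Prime → p₀ ≤ p → ∀ I ∈ wildI E p, I ≤ K.fixingSubgroup := by
  classical
  let b := Module.finBasis E K
  choose q hq using fun i => fix_elt ((b i : K) : AlgebraicClosure E)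
  refine ⟨∑ i, q i, fun p hp hle I hI => ?_⟩
  obtain ⟨P, hP, hpP, rfl⟩ := hI
  intro g hg
  rw [IntermediateField.mem_fixingSubgroup_iff]
  intro x hx
  have hfix : ∀ i, g ((b i : K) : AlgebraicClosure E) = ((b i : K) : AlgebraicClosure E) := by
    intro i
    refine hq i p hp (le_trans ?_ hle) P hP hpP g hg
    exact Finset.single_le_sum (f := q) (fun _ _ => Nat.zero_le _) (Finset.mem_univ i)
  have h1 := b.sum_repr ⟨x, hx⟩
  have h2 : x = ∑ i, (b.repr ⟨x, hx⟩ i) • ((b i : K) : AlgebraicClosure E) := by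
    have := congrArg (fun w : K => (w : AlgebraicClosure E)) h1
    simp only [IntermediateField.coe_sum, IntermediateField.coe_smul] at this
    exact this.symm
  rw [h2, map_sum]
  refine Finset.sum_congr rfl fun i _ => ?_
  rw [Algebra.smul_def, map_mul, AlgEquiv.commutes, hfix]

/-- **Stub UNR.** -/
theorem main : Pool.Agent.H55.MU.S_UNR := by
  intro K hK
  exact gen (E := ℚ) K

end Pool.Agent.H35.MU
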